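import Pool.Agent.Run7.h108.HD.Off

/-! The random potential applied to a column of the resolvent, away from the shell. -/

set_option autoImplicit false
set_option linter.unusedSectionVars false

open scoped BigOperators Matrix
open MeasureTheory

namespace Run7.h108.HD

open Pool.Agent.Run7.h47 hiding mm mf ze V1 V2 ff
open Pool.Agent.W788.MFP.Four Pool.Agent.W788.BK
open Pool.Agent.W788.MFP.Form
open Run7.h108.GL (Law Γ gz ww a0)

variable {d L : ℕ} [NeZero L]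

theorem q_kern (m f : T d L → ℝ) (hm : ∀ k, m (-k) = m k) :
    q m f = ∑ x, ∑ y, K m (x - y) * (f x * f y) := by
  rw [← sum_mul_Op m f hm]
  unfold Op
  refine Finset.sum_congr rfl fun x _ => ?_
  rw [Finset.mul_sum]
  exact Finset.sum_congr rfl fun y _ => by ring

theorem qc_kern (m : T d L → ℝ) (hm : ∀ k, m (-k) = m k) (V : T d L → ℝ) (u : T d L → ℂ) :
    qc m (fun x => (V x : ℂ) * u x) = ∑ x, ∑ y, K m (x - y) *
      (V x * V y * ((u x).re * (u y).re + (u x).im * (u y).im)) := by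
  unfold qc
  rw [q_kern m _ hm, q_kern m _ hm, ← Finset.sum_add_distrib]
  refine Finset.sum_congr rfl fun x _ => ?_
  rw [← Finset.sum_add_distrib]
  refine Finset.sum_congr rfl fun y _ => ?_
  simp only [Complex.re_ofReal_mul, Complex.im_ofReal_mul]
  ring

theorem K_zero (m : T d L → ℝ) : K m 0 = (NN d L)⁻¹ * ∑ k, m k := by
  unfold K
  simp only [e_zero, Complex.one_re, mul_one]

theorem K_abs (m : T d L → ℝ) (h : ∀ k, 0 ≤ m k) (z : T d L) :
    |K m z| ≤ (NN d L)⁻¹ * ∑ k, m k := by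
  unfold K
  rw [abs_mul, abs_of_nonneg (inv_nonneg.2 NN_pos.le)]
  refine mul_le_mul_of_nonneg_left ?_ (inv_nonneg.2 NN_pos.le)
  refine (Finset.abs_sum_le_sum_abs _ _).trans (Finset.sum_le_sum fun k _ => ?_)
  rw [abs_mul, abs_of_nonneg (h k)]
  have h1 : |(e k z).re| ≤ 1 := (Complex.abs_re_le_norm _).trans (by rw [norm_e])
  exact mul_le_of_le_one_right (h k) h1

theorem qc_two (m : T d L → ℝ) (h : ∀ k, 0 ≤ m k) (u v : T d L → ℂ) :
    qc m (fun x => u x + v x) ≤ 2 * qc m u + 2 * qc m v := by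
  have key : ∀ f g : T d L → ℝ, q m (fun x => f x + g x) ≤ 2 * q m f + 2 * q m g := by
    intro f g
    unfold q
    have h1 : ∀ k, m k * ‖ft (fun x => f x + g x) k‖ ^ 2 ≤
        2 * (m k * ‖ft f k‖ ^ 2) + 2 * (m k * ‖ft g k‖ ^ 2) := by
      intro k
      rw [ft_add]
      have h2 : ‖ft f k + ft g k‖ ^ 2 ≤ 2 * ‖ft f k‖ ^ 2 + 2 * ‖ft g k‖ ^ 2 := by
        have h3 := norm_add_le (ft f k) (ft g k)
        have h4 := norm_nonneg (ft f k + ft g k)
        nlinarith [sq_nonneg (‖ft f k‖ - ‖ft g k‖), norm_nonneg (ft f k), norm_nonneg (ft g k)]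
      have h5 := mul_le_mul_of_nonneg_left h2 (h k)
      linarith
    have h6 := Finset.sum_le_sum fun k (_ : k ∈ Finset.univ) => h1 k
    rw [Finset.sum_add_distrib, ← Finset.mul_sum, ← Finset.mul_sum] at h6
    have h7 := mul_le_mul_of_nonneg_left h6 (inv_nonneg.2 (NN_pos (d := d) (L := L)).le)
    linarith
  unfold qc
  have h1 := key (fun x => (u x).re) (fun x => (v x).re)
  have h2 := key (fun x => (u x).im) (fun x => (v x).im)
  simp only [Complex.add_re, Complex.add_im]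
  linarith

theorem qc_le_nsq (m : T d L → ℝ) (c : ℝ) (h : ∀ k, m k ≤ c) (u : T d L → ℂ) :
    qc m u ≤ c * ∑ x, ‖u x‖ ^ 2 := by
  have h1 : ∀ f : T d L → ℝ, q m f ≤ c * ∑ x, f x ^ 2 := by
    intro f
    rw [sum_sq, ← q_const]
    exact q_mono _ _ _ fun k => by rw [mul_one]; exact h k
  unfold qc
  have h2 : ∑ x, ‖u x‖ ^ 2 = ∑ x, (u x).re ^ 2 + ∑ x, (u x).im ^ 2 := by
    rw [← Finset.sum_add_distrib]
    refine Finset.sum_congr rfl fun x _ => ?_
    rw [← Complex.normSq_eq_norm_sq, Complex.normSq_apply]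
    ring
  rw [h2, mul_add]
  exact add_le_add (h1 _) (h1 _)

section main
variable [Law]

theorem one_le_b : 1 ≤ Law.b ^ 2 := by
  have h1 : ∫ s, s ^ 2 ∂Law.μ ≤ ∫ _s : ℝ, Law.b ^ 2 ∂Law.μ := by
    refine integral_mono_ae ?_ (integrable_const _) ?_
    · refine Integrable.of_bound (C := Law.b ^ 2) (by fun_prop) ?_
      filter_upwards [Law.bd] with s hs
      rw [Real.norm_eq_abs, abs_pow]
      exact pow_le_pow_left₀ (abs_nonneg _) hs 2
    · filter_upwards [Law.bd] with s hs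
      rw [← sq_abs]
      exact pow_le_pow_left₀ (abs_nonneg _) hs 2
  rw [Law.var] at h1
  simpa using h1

/-- the part of the averages -/
theorem avg_part (m : T d L → ℝ) (hm : ∀ k, m (-k) = m k) (h0 : ∀ k, 0 ≤ m k)
    (G : T d L → (T d L → ℝ) → ℂ) (hG : ∀ x, Pool.Agent.Run7.h47.BC (G x)) :
    ∫ V, qc m (fun x => (V x : ℂ) * av x (G x) V) ∂(Γ (T d L)) ≤
      (NN d L)⁻¹ * (∑ k, m k) * (∑ x, ∫ V, ‖G x V‖ ^ 2 ∂(Γ (T d L)) +
        Law.b ^ 2 * ∑ x, ∑ y, ∫ V, ‖G x V - G x (Function.update V y 0)‖ ^ 2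
          ∂(Γ (T d L))) := by
  have hterm : ∀ x y : T d L, Run7.h108.GL.BC fun V : T d L → ℝ => K m (x - y) *
      (V x * V y * ((av x (G x) V).re * (av y (G y) V).re +
        (av x (G x) V).im * (av y (G y) V).im)) := by
    intro x y
    have gx := Run7.h108.GL.BC.of47 (av_BC (hG x) x)
    have gy := Run7.h108.GL.BC.of47 (av_BC (hG y) y)
    have vx : Run7.h108.GL.BC fun V : T d L → ℝ => V x := by
      have := (Run7.h108.GL.BC.co (κ := T d L) x).re
      simpa using this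
    have vy : Run7.h108.GL.BC fun V : T d L → ℝ => V y := by
      have := (Run7.h108.GL.BC.co (κ := T d L) y).re
      simpa using this
    exact (Run7.h108.GL.BC.const _).mulR ((vx.mulR vy).mulR
      ((gx.re.mulR gy.re).add (gx.im.mulR gy.im)))
  set I : T d L → T d L → ℝ := fun x y => ∫ V, V x * V y * ((av x (G x) V).re *
    (av y (G y) V).re + (av x (G x) V).im * (av y (G y) V).im) ∂(Γ (T d L)) with hI
  set A : T d L → T d L → ℝ := fun x y =>
    ∫ V, ‖G x V - G x (Function.update V y 0)‖ ^ 2 ∂(Γ (T d L)) with hA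
  have hA0 : ∀ x y, 0 ≤ A x y := fun x y => integral_nonneg fun V => by positivity
  set g : ℝ := (NN d L)⁻¹ * ∑ k, m k with hg
  have hg0 : 0 ≤ g := mul_nonneg (inv_nonneg.2 NN_pos.le) (Finset.sum_nonneg fun k _ => h0 k)
  have e1 : ∫ V, qc m (fun x => (V x : ℂ) * av x (G x) V) ∂(Γ (T d L)) =
      ∑ x, ∑ y, K m (x - y) * I x y := by
    simp only [qc_kern m hm]
    rw [integral_finsetSum _ fun x _ => (Run7.h108.GL.BC.sum _ fun y _ => hterm x y).intR]
    refine Finset.sum_congr rfl fun x _ => ?_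
    rw [integral_finsetSum _ fun y _ => (hterm x y).intR]
    refine Finset.sum_congr rfl fun y _ => ?_
    rw [integral_const_mul]
  rw [e1]
  have e2 : ∀ x y, K m (x - y) * I x y ≤ g * ((if x = y then ∫ V, ‖G x V‖ ^ 2 ∂(Γ (T d L)) else 0) +
      Law.b ^ 2 / 2 * (A x y + A y x)) := by
    intro x y
    by_cases hxy : x = y
    · subst hxy
      rw [if_pos rfl, sub_self, K_zero]
      refine mul_le_mul_of_nonneg_left ?_ hg0
      have h1 := diag (hG x) x
      have h2 : 0 ≤ Law.b ^ 2 / 2 * (A x x + A x x) := by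
        have := hA0 x x
        positivity
      linarith
    · rw [if_neg hxy, zero_add]
      have h1 := offd (hG x) (hG y) hxy
      calc K m (x - y) * I x y ≤ |K m (x - y) * I x y| := le_abs_self _
        _ = |K m (x - y)| * |I x y| := abs_mul _ _
        _ ≤ g * (Law.b ^ 2 / 2 * (A x y + A y x)) :=
          mul_le_mul (K_abs m h0 _) h1 (abs_nonneg _) hg0
  refine (Finset.sum_le_sum fun x _ => Finset.sum_le_sum fun y _ => e2 x y).trans (le_of_eq ?_)
  simp only [← Finset.mul_sum, Finset.sum_add_distrib]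
  have e3 : ∑ x : T d L, ∑ y : T d L, A y x = ∑ x, ∑ y, A x y := Finset.sum_comm
  rw [e3]
  have e4 : ∑ x : T d L, ∑ y : T d L, (if x = y then ∫ V, ‖G x V‖ ^ 2 ∂(Γ (T d L)) else 0) =
      ∑ x, ∫ V, ‖G x V‖ ^ 2 ∂(Γ (T d L)) := by
    refine Finset.sum_congr rfl fun x _ => ?_
    simp
  rw [e4]
  ring

variable {σ E t : ℝ}

theorem R_diffy (ht : 0 < t) (V : T d L → ℝ) (x y : T d L) :
    ‖R σ E t V x 0 - R σ E t (Function.update V y 0) x 0‖ ^ 2 =
      σ ^ 2 * V y ^ 2 * (‖ww σ E t y V‖ ^ 2 * ‖R σ E t V y x‖ ^ 2 * ‖R σ E t V y 0‖ ^ 2) := by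
  have h1 := Run7.h108.GL.r1 (σ := σ) (E := E) ht V y x 0
  have h2 := Run7.h108.GL.r4 (σ := σ) (E := E) ht V y x
  rw [h2] at h1
  have h3 : R σ E t V x 0 - R σ E t (Function.update V y 0) x 0 =
      -((σ : ℂ) * (V y : ℂ) * (ww σ E t y V * R σ E t V y x * R σ E t V y 0)) := by
    rw [h1, R_symm σ E t V x y]
    ring
  rw [h3, norm_neg, norm_mul, norm_mul, norm_mul, norm_mul, Complex.norm_real, Complex.norm_real]
  simp only [mul_pow, Real.norm_eq_abs, sq_abs]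

theorem R_diffx (ht : 0 < t) (V : T d L → ℝ) (x : T d L) :
    ‖R σ E t V x 0 - R σ E t (Function.update V x 0) x 0‖ ^ 2 =
      σ ^ 2 * V x ^ 2 * (‖a0 σ E t x V‖ ^ 2 * ‖R σ E t V x 0‖ ^ 2) := by
  have h1 := Run7.h108.GL.r1 (σ := σ) (E := E) ht V x x 0
  have h3 : R σ E t V x 0 - R σ E t (Function.update V x 0) x 0 =
      -((σ : ℂ) * (V x : ℂ) * (a0 σ E t x V * R σ E t V x 0)) := by
    rw [h1]
    unfold a0
    ring
  rw [h3, norm_neg, norm_mul, norm_mul, norm_mul, Complex.norm_real, Complex.norm_real]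
  simp only [mul_pow, Real.norm_eq_abs, sq_abs]

theorem Rim_BC (ht : 0 < t) (y : T d L) :
    Run7.h108.GL.BC fun V : T d L → ℝ => (R σ E t V y y).im / t := by
  have h := (Run7.h108.GL.BC.const (κ := T d L) t⁻¹).mulR
    (Run7.h108.GL.R_BC (σ := σ) (E := E) ht y y).im
  have e : (fun V : T d L → ℝ => t⁻¹ * (R σ E t V y y).im) =
      fun V => (R σ E t V y y).im / t := by
    funext V
    rw [div_eq_inv_mul]
  rwa [e] at h

/-- mass transport -/
theorem mt {f : T d L → (T d L → ℝ) → ℝ} (ht : 0 < t) (hf : Run7.h108.GL.BC (f 0))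
    (hs : ∀ y V, f 0 (fun z => V (z + y)) = f y V) :
    ∑ y, ∫ V, f y V * ‖R σ E t V y 0‖ ^ 2 ∂(Γ (T d L)) =
      ∫ V, f 0 V * ((R σ E t V 0 0).im / t) ∂(Γ (T d L)) := by
  have h1 : ∀ y : T d L, ∫ V, f y V * ‖R σ E t V y 0‖ ^ 2 ∂(Γ (T d L)) =
      ∫ V, f 0 V * ‖R σ E t V 0 (-y)‖ ^ 2 ∂(Γ (T d L)) := by
    intro y
    have hc : Continuous fun V : T d L → ℝ => f 0 V * ‖R σ E t V 0 (-y)‖ ^ 2 :=
      (hf.mulR (Run7.h108.GL.R_BC (σ := σ) (E := E) ht 0 (-y)).nsq).1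
    rw [← Run7.h108.GL.int_shiftR hc y]
    refine integral_congr_ae (Filter.Eventually.of_forall fun V => ?_)
    simp only
    rw [hs, R_shift, zero_add, neg_add_cancel]
  simp only [h1]
  have h2 : ∑ y : T d L, ∫ V, f 0 V * ‖R σ E t V 0 (-y)‖ ^ 2 ∂(Γ (T d L)) =
      ∑ y : T d L, ∫ V, f 0 V * ‖R σ E t V 0 y‖ ^ 2 ∂(Γ (T d L)) :=
    Equiv.sum_comp (Equiv.neg (T d L)) fun y => ∫ V, f 0 V * ‖R σ E t V 0 y‖ ^ 2 ∂(Γ (T d L))
  rw [h2, ← integral_finsetSum _ fun y _ =>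
    (hf.mulR (Run7.h108.GL.R_BC (σ := σ) (E := E) ht 0 y).nsq).intR]
  refine integral_congr_ae (Filter.Eventually.of_forall fun V => ?_)
  simp only
  rw [← Finset.mul_sum, R_ward ht]

theorem main : Run7.h442.HD.S_CC := by
  intro _ d L _ σ E t ρ ht hρ
  set m : T d L → ℝ := fun k => (J E ρ k)⁻¹ with hm
  have hme : ∀ k, m (-k) = m k := fun k => by simp only [hm, J_neg]
  have hm0 : ∀ k, 0 ≤ m k := fun k => inv_nonneg.2 (J_pos E ρ hρ k).le
  have hmρ : ∀ k, m k ≤ ρ⁻¹ := fun k => inv_anti₀ hρ (J_ge E ρ hρ k)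
  set G : T d L → (T d L → ℝ) → ℂ := fun x V => R σ E t V x 0 with hG
  have hGB : ∀ x, Pool.Agent.Run7.h47.BC (G x) := fun x => Pool.Agent.Run7.h47.R_BC ht x 0
  have hgz : (NN d L)⁻¹ * ∑ k, m k = gz d L E ρ := rfl
  have hgz0 : 0 ≤ gz d L E ρ := Run7.h108.GL.gz_nonneg E ρ hρ
  have hb := Law.hb
  -- the two parts
  have i1 := avg_part m hme hm0 G hGB
  rw [hgz] at i1
  have gR : ∀ x, Run7.h108.GL.BC (G x) := fun x => Run7.h108.GL.BC.of47 (hGB x)
  have gA : ∀ x, Run7.h108.GL.BC (av x (G x)) := fun x =>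
    Run7.h108.GL.BC.of47 (av_BC (hGB x) x)
  have vx : ∀ x : T d L, Run7.h108.GL.BC fun V : T d L → ℝ => V x := fun x => by
    have := (Run7.h108.GL.BC.co (κ := T d L) x).re
    simpa using this
  have qBC : ∀ u : T d L → (T d L → ℝ) → ℂ, (∀ x, Run7.h108.GL.BC (u x)) →
      Run7.h108.GL.BC fun V : T d L → ℝ => qc m (fun x => (V x : ℂ) * u x V) := by
    intro u hu
    simp only [qc_kern m hme]
    exact Run7.h108.GL.BC.sum _ fun x _ => Run7.h108.GL.BC.sum _ fun y _ =>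
      (Run7.h108.GL.BC.const _).mulR (((vx x).mulR (vx y)).mulR
        (((hu x).re.mulR (hu y).re).add ((hu x).im.mulR (hu y).im)))
  have s1 : ∫ V, qc m (fun x => (V x : ℂ) * R σ E t V x 0) ∂(Γ (T d L)) ≤
      2 * ∫ V, qc m (fun x => (V x : ℂ) * av x (G x) V) ∂(Γ (T d L)) +
      2 * ∫ V, ρ⁻¹ * ∑ x, V x ^ 2 * ‖G x V - av x (G x) V‖ ^ 2 ∂(Γ (T d L)) := by
    have bD : Run7.h108.GL.BC fun V : T d L → ℝ => ρ⁻¹ * ∑ x, V x ^ 2 *
        ‖G x V - av x (G x) V‖ ^ 2 :=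
      (Run7.h108.GL.BC.const _).mulR (Run7.h108.GL.BC.sum _ fun x _ =>
        ((vx x).powR 2).mulR ((gR x).sub (gA x)).nsq)
    rw [← integral_const_mul, ← integral_const_mul, ← integral_add
      ((qBC _ gA).intR.const_mul 2) (bD.intR.const_mul 2)]
    refine integral_mono (qBC _ gR).intR (((qBC _ gA).intR.const_mul 2).add
      (bD.intR.const_mul 2)) fun V => ?_
    simp only
    have e1 : (fun x => (V x : ℂ) * R σ E t V x 0) = fun x => (V x : ℂ) * av x (G x) V +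
        (V x : ℂ) * (G x V - av x (G x) V) := by
      funext x
      ring
    rw [e1]
    refine (qc_two m hm0 _ _).trans (add_le_add le_rfl ?_)
    refine mul_le_mul_of_nonneg_left ((qc_le_nsq m _ hmρ _).trans (le_of_eq ?_)) (by norm_num)
    congr 1
    refine Finset.sum_congr rfl fun x _ => ?_
    rw [norm_mul, mul_pow, Complex.norm_real, Real.norm_eq_abs, sq_abs]
  -- first sum
  have s2 : ∑ x, ∫ V, ‖G x V‖ ^ 2 ∂(Γ (T d L)) =
      ∫ V, (R σ E t V (0 : T d L) 0).im / t ∂(Γ (T d L)) := by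
    rw [← integral_finsetSum _ fun x _ => (gR x).nsq.intR]
    refine integral_congr_ae (Filter.Eventually.of_forall fun V => ?_)
    simp only [hG]
    rw [← R_ward ht]
    exact Finset.sum_congr rfl fun x _ => by rw [R_symm]
  -- second sum
  have s3 : ∑ x, ∑ y, ∫ V, ‖G x V - G x (Function.update V y 0)‖ ^ 2 ∂(Γ (T d L)) ≤
      Law.b ^ 2 * σ ^ 2 * ∫ V, ‖ww σ E t (0 : T d L) V‖ ^ 2 *
        ((R σ E t V 0 0).im / t) ^ 2 ∂(Γ (T d L)) := by
    rw [Finset.sum_comm]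
    have h1 := mt (d := d) (L := L) (σ := σ) (E := E) (t := t)
      (f := fun y V => ‖ww σ E t y V‖ ^ 2 * ((R σ E t V y y).im / t)) ht
      ((Run7.h108.GL.ww_BC (σ := σ) (E := E) ht 0).nsq.mulR (Rim_BC ht 0)) (fun y V => by
        rw [Run7.h108.GL.ww_shift, R_shift, zero_add])
    have h2 : ∫ V, ‖ww σ E t (0 : T d L) V‖ ^ 2 * ((R σ E t V 0 0).im / t) ^ 2 ∂(Γ (T d L)) =
        ∫ V, ‖ww σ E t (0 : T d L) V‖ ^ 2 * ((R σ E t V 0 0).im / t) *
          ((R σ E t V 0 0).im / t) ∂(Γ (T d L)) :=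
      integral_congr_ae (Filter.Eventually.of_forall fun V => by simp only; ring)
    rw [h2, ← h1, Finset.mul_sum]
    refine Finset.sum_le_sum fun y _ => ?_
    have bW : Run7.h108.GL.BC fun V : T d L → ℝ => ‖ww σ E t y V‖ ^ 2 *
        ((R σ E t V y y).im / t) * ‖R σ E t V y 0‖ ^ 2 :=
      ((Run7.h108.GL.ww_BC (σ := σ) (E := E) ht y).nsq.mulR (Rim_BC ht y)).mulR
        (Run7.h108.GL.R_BC (σ := σ) (E := E) ht y 0).nsq
    rw [← integral_const_mul, ← integral_finsetSum _ fun x _ =>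
      ((gR x).sub ((gR x).upd y)).nsq.intR]
    refine integral_mono_ae (Run7.h108.GL.BC.sum _ fun x _ =>
      ((gR x).sub ((gR x).upd y)).nsq).intR (bW.intR.const_mul _) ?_
    filter_upwards [Run7.h108.GL.ae_cube (κ := T d L)] with V hV
    simp only [hG]
    have h3 : ∑ x, ‖R σ E t V x 0 - R σ E t (Function.update V y 0) x 0‖ ^ 2 =
        σ ^ 2 * V y ^ 2 * (‖ww σ E t y V‖ ^ 2 * ((R σ E t V y y).im / t) *
          ‖R σ E t V y 0‖ ^ 2) := by
      simp only [R_diffy ht]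
      rw [← R_ward ht, Finset.mul_sum, Finset.sum_mul, Finset.mul_sum]
    rw [h3]
    have h4 : V y ^ 2 ≤ Law.b ^ 2 := by
      rw [← sq_abs]
      exact pow_le_pow_left₀ (abs_nonneg _) (hV y) 2
    have h5 : 0 ≤ ‖ww σ E t y V‖ ^ 2 * ((R σ E t V y y).im / t) * ‖R σ E t V y 0‖ ^ 2 := by
      have := R_im_nonneg (σ := σ) (E := E) ht V y
      positivity
    calc σ ^ 2 * V y ^ 2 * (‖ww σ E t y V‖ ^ 2 * ((R σ E t V y y).im / t) *
          ‖R σ E t V y 0‖ ^ 2) ≤ σ ^ 2 * Law.b ^ 2 * (‖ww σ E t y V‖ ^ 2 *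
            ((R σ E t V y y).im / t) * ‖R σ E t V y 0‖ ^ 2) :=
          mul_le_mul_of_nonneg_right (mul_le_mul_of_nonneg_left h4 (sq_nonneg σ)) h5
      _ = _ := by ring
  -- third sum
  have s4 : ∫ V, ρ⁻¹ * ∑ x, V x ^ 2 * ‖G x V - av x (G x) V‖ ^ 2 ∂(Γ (T d L)) ≤
      ρ⁻¹ * (Law.b ^ 4 * σ ^ 2 *
      ∫ V, ‖a0 σ E t (0 : T d L) V‖ ^ 2 * ((R σ E t V 0 0).im / t) ∂(Γ (T d L))) := by
    rw [integral_const_mul]
    refine mul_le_mul_of_nonneg_left ?_ (inv_nonneg.2 hρ.le)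
    have h1 := mt (d := d) (L := L) (σ := σ) (E := E) (t := t)
      (f := fun y V => ‖a0 σ E t y V‖ ^ 2) ht
      (Run7.h108.GL.a0_BC (σ := σ) (E := E) ht 0).nsq (fun y V => by
        rw [Run7.h108.GL.a0_shift])
    rw [← h1, integral_finsetSum _ fun x _ =>
      (((vx x).powR 2).mulR ((gR x).sub (gA x)).nsq).intR, Finset.mul_sum]
    refine Finset.sum_le_sum fun x _ => ?_
    calc ∫ V, V x ^ 2 * ‖G x V - av x (G x) V‖ ^ 2 ∂(Γ (T d L)) ≤
        ∫ V, Law.b ^ 2 * ‖G x V - av x (G x) V‖ ^ 2 ∂(Γ (T d L)) := by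
          refine integral_mono_ae (((vx x).powR 2).mulR ((gR x).sub (gA x)).nsq).intR
            (((gR x).sub (gA x)).nsq.intR.const_mul _) ?_
          filter_upwards [Run7.h108.GL.ae_cube (κ := T d L)] with V hV
          refine mul_le_mul_of_nonneg_right ?_ (by positivity)
          rw [← sq_abs]
          exact pow_le_pow_left₀ (abs_nonneg _) (hV x) 2
      _ = Law.b ^ 2 * ∫ V, ‖G x V - av x (G x) V‖ ^ 2 ∂(Γ (T d L)) := integral_const_mul _ _
      _ ≤ Law.b ^ 2 * ∫ V, ‖G x V - G x (Function.update V x 0)‖ ^ 2 ∂(Γ (T d L)) :=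
          mul_le_mul_of_nonneg_left (int_var_le (hGB x) x) (by positivity)
      _ ≤ Law.b ^ 2 * ∫ V, Law.b ^ 2 * σ ^ 2 * (‖a0 σ E t x V‖ ^ 2 * ‖R σ E t V x 0‖ ^ 2)
            ∂(Γ (T d L)) := by
          refine mul_le_mul_of_nonneg_left ?_ (by positivity)
          refine integral_mono_ae ((gR x).sub ((gR x).upd x)).nsq.intR
            (((Run7.h108.GL.a0_BC (σ := σ) (E := E) ht x).nsq.mulR
              (Run7.h108.GL.R_BC (σ := σ) (E := E) ht x 0).nsq).intR.const_mul _) ?_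
          filter_upwards [Run7.h108.GL.ae_cube (κ := T d L)] with V hV
          simp only [hG]
          rw [R_diffx ht]
          have h4 : V x ^ 2 ≤ Law.b ^ 2 := by
            rw [← sq_abs]
            exact pow_le_pow_left₀ (abs_nonneg _) (hV x) 2
          refine mul_le_mul_of_nonneg_right ?_ (by positivity)
          rw [mul_comm (Law.b ^ 2)]
          exact mul_le_mul_of_nonneg_left h4 (sq_nonneg σ)
      _ = _ := by
          rw [integral_const_mul]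
          ring
  rw [s2] at i1
  have hb4 : Law.b ^ 2 * Law.b ^ 2 = Law.b ^ 4 := by ring
  set P := ∫ V, (R σ E t V (0 : T d L) 0).im / t ∂(Γ (T d L)) with hP
  set Q := ∫ V, ‖ww σ E t (0 : T d L) V‖ ^ 2 * ((R σ E t V 0 0).im / t) ^ 2 ∂(Γ (T d L)) with hQ
  set W := ∫ V, ‖a0 σ E t (0 : T d L) V‖ ^ 2 * ((R σ E t V 0 0).im / t) ∂(Γ (T d L)) with hW
  set S3 := ∑ x, ∑ y, ∫ V, ‖G x V - G x (Function.update V y 0)‖ ^ 2 ∂(Γ (T d L)) with hS3
  have i2 : ∫ V, qc m (fun x => (V x : ℂ) * av x (G x) V) ∂(Γ (T d L)) ≤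
      gz d L E ρ * (P + Law.b ^ 2 * (Law.b ^ 2 * σ ^ 2 * Q)) := by
    refine i1.trans (mul_le_mul_of_nonneg_left ?_ hgz0)
    have := mul_le_mul_of_nonneg_left s3 (sq_nonneg Law.b)
    linarith
  refine s1.trans ?_
  calc 2 * ∫ V, qc m (fun x => (V x : ℂ) * av x (G x) V) ∂(Γ (T d L)) +
      2 * ∫ V, ρ⁻¹ * ∑ x, V x ^ 2 * ‖G x V - av x (G x) V‖ ^ 2 ∂(Γ (T d L)) ≤
      2 * (gz d L E ρ * (P + Law.b ^ 2 * (Law.b ^ 2 * σ ^ 2 * Q))) +
      2 * (ρ⁻¹ * (Law.b ^ 4 * σ ^ 2 * W)) :=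
        add_le_add (mul_le_mul_of_nonneg_left i2 (by norm_num))
          (mul_le_mul_of_nonneg_left s4 (by norm_num))
    _ = _ := by ring

end main

end Run7.h108.HD
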