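import Pool.Agent.Run7.h442.HD.Iface

/-! Averages over one variable of the field. -/

set_option autoImplicit false
set_option linter.unusedSectionVars false

open scoped BigOperators Matrix
open MeasureTheory

namespace Run7.h108.HD

open Run7.h108.GL (Law Γ)

variable {κ : Type} [Fintype κ] [DecidableEq κ] [Law]

/-- the average over one variable -/
noncomputable def av (y : κ) (F : (κ → ℝ) → ℂ) (V : κ → ℝ) : ℂ :=
  ∫ s, F (Function.update V y s) ∂Law.μ

theorem upd_cont (y : κ) : Continuous fun p : (κ → ℝ) × ℝ => Function.update p.1 y p.2 :=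
  continuous_fst.update y continuous_snd

theorem upd_cont2 (y : κ) (V : κ → ℝ) : Continuous fun s : ℝ => Function.update V y s :=
  continuous_const.update y continuous_id

theorem mp_upd (y : κ) : MeasurePreserving (fun p : (κ → ℝ) × ℝ => Function.update p.1 y p.2)
    ((Γ κ).prod Law.μ) (Γ κ) :=
  ⟨(upd_cont y).measurable, Pool.Agent.W540.BK.map_update κ Law.μ y⟩

theorem fubR {f : (κ → ℝ) → ℝ} (hf : Continuous f) (hi : Integrable f (Γ κ)) (y : κ) :
    ∫ V, f V ∂(Γ κ) = ∫ V, ∫ s, f (Function.update V y s) ∂Law.μ ∂(Γ κ) := by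
  have h2 : Integrable (fun p : (κ → ℝ) × ℝ => f (Function.update p.1 y p.2))
      ((Γ κ).prod Law.μ) :=
    ((mp_upd y).integrable_comp hf.aestronglyMeasurable).2 hi
  rw [← integral_prod (fun p : (κ → ℝ) × ℝ => f (Function.update p.1 y p.2)) h2]
  conv_lhs => rw [← (mp_upd (κ := κ) y).map_eq]
  rw [integral_map (mp_upd y).measurable.aemeasurable hf.aestronglyMeasurable]

theorem fub_int {f : (κ → ℝ) → ℝ} (hf : Continuous f) (hi : Integrable f (Γ κ)) (y : κ) :
    Integrable (fun V => ∫ s, f (Function.update V y s) ∂Law.μ) (Γ κ) := by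
  have h2 : Integrable (fun p : (κ → ℝ) × ℝ => f (Function.update p.1 y p.2))
      ((Γ κ).prod Law.μ) :=
    ((mp_upd y).integrable_comp hf.aestronglyMeasurable).2 hi
  exact h2.integral_prod_left

theorem nsq_int {F : (κ → ℝ) → ℂ} (h : Pool.Agent.Run7.h47.BC F) :
    Continuous (fun V => ‖F V‖ ^ 2) ∧ Integrable (fun V => ‖F V‖ ^ 2) (Γ κ) := by
  have h1 := (Run7.h108.GL.BC.of47 h).nsq
  exact ⟨h1.1, h1.intR⟩

theorem av_BC {F : (κ → ℝ) → ℂ} (h : Pool.Agent.Run7.h47.BC F) (y : κ) :
    Pool.Agent.Run7.h47.BC (av y F) := by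
  obtain ⟨hc, C, hC⟩ := h
  refine ⟨?_, C, fun V => ?_⟩
  · unfold av
    refine continuous_of_dominated (bound := fun _ => C) (fun V => ?_) (fun V => ?_)
      (integrable_const C) ?_
    · exact (hc.comp (upd_cont2 y V)).aestronglyMeasurable
    · exact Filter.Eventually.of_forall fun s => hC _
    · exact Filter.Eventually.of_forall fun s =>
        hc.comp (continuous_id.update y continuous_const)
  · unfold av
    refine (norm_integral_le_of_norm_le_const (Filter.Eventually.of_forall fun s => hC _)).trans ?_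
    simp

theorem av_upd (F : (κ → ℝ) → ℂ) (y : κ) (V : κ → ℝ) (s : ℝ) :
    av y F (Function.update V y s) = av y F V := by
  unfold av
  simp only [Function.update_idem]

theorem av_comm {F : (κ → ℝ) → ℂ} (h : Pool.Agent.Run7.h47.BC F) {x y : κ} (hxy : x ≠ y) :
    av x (av y F) = av y (av x F) := by
  funext V
  obtain ⟨hc, C, hC⟩ := h
  unfold av
  have h0 : Continuous fun p : ℝ × ℝ => Function.update V x p.1 :=
    (upd_cont2 x V).comp continuous_fst
  have h1 : Continuous fun p : ℝ × ℝ => F (Function.update (Function.update V x p.1) y p.2) :=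
    hc.comp (h0.update y continuous_snd)
  rw [integral_integral_swap]
  · refine integral_congr_ae (Filter.Eventually.of_forall fun s => ?_)
    simp only
    refine integral_congr_ae (Filter.Eventually.of_forall fun r => ?_)
    simp only
    rw [Function.update_comm hxy]
  · exact Integrable.of_bound h1.aestronglyMeasurable C
      (Filter.Eventually.of_forall fun p => hC _)

theorem av_sub {F G : (κ → ℝ) → ℂ} (hF : Pool.Agent.Run7.h47.BC F)
    (hG : Pool.Agent.Run7.h47.BC G) (y : κ) (V : κ → ℝ) :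
    av y (fun V => F V - G V) V = av y F V - av y G V := by
  unfold av
  obtain ⟨hc, C, hC⟩ := hF
  obtain ⟨hc', C', hC'⟩ := hG
  rw [integral_sub]
  · exact Integrable.of_bound (hc.comp (upd_cont2 y V)).aestronglyMeasurable C
      (Filter.Eventually.of_forall fun p => hC _)
  · exact Integrable.of_bound (hc'.comp (upd_cont2 y V)).aestronglyMeasurable C'
      (Filter.Eventually.of_forall fun p => hC' _)

theorem int_av_sq {F : (κ → ℝ) → ℂ} (h : Pool.Agent.Run7.h47.BC F) (y : κ) :
    ∫ V, ‖av y F V‖ ^ 2 ∂(Γ κ) ≤ ∫ V, ‖F V‖ ^ 2 ∂(Γ κ) := by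
  rw [fubR (nsq_int h).1 (nsq_int h).2 y]
  refine integral_mono (nsq_int (av_BC h y)).2 (fub_int (nsq_int h).1 (nsq_int h).2 y)
    fun V => ?_
  obtain ⟨hc, C, hC⟩ := h
  exact Pool.Agent.W193.BK.ES.norm_int_sq Law.μ (fun s => F (Function.update V y s))
    (hc.comp (upd_cont2 y V)).aestronglyMeasurable C fun s => hC _

theorem int_var_le {F : (κ → ℝ) → ℂ} (h : Pool.Agent.Run7.h47.BC F) (y : κ) :
    ∫ V, ‖F V - av y F V‖ ^ 2 ∂(Γ κ) ≤
      ∫ V, ‖F V - F (Function.update V y 0)‖ ^ 2 ∂(Γ κ) := by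
  have hb1 : Pool.Agent.Run7.h47.BC fun V => F V - av y F V := h.sub (av_BC h y)
  have hb2 : Pool.Agent.Run7.h47.BC fun V => F V - F (Function.update V y 0) :=
    h.sub ⟨h.1.comp (continuous_id.update y continuous_const), h.2.imp fun C hC V => hC _⟩
  rw [fubR (nsq_int hb1).1 (nsq_int hb1).2 y, fubR (nsq_int hb2).1 (nsq_int hb2).2 y]
  refine integral_mono (fub_int (nsq_int hb1).1 (nsq_int hb1).2 y)
    (fub_int (nsq_int hb2).1 (nsq_int hb2).2 y) fun V => ?_
  obtain ⟨hc, C, hC⟩ := h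
  simp only [av_upd, Function.update_idem]
  exact Pool.Agent.W193.BK.ES.var_le Law.μ (fun s => F (Function.update V y s))
    (hc.comp (upd_cont2 y V)).aestronglyMeasurable C (fun s => hC _) _

/-- odd moments vanish -/
theorem vz {Φ : (κ → ℝ) → ℂ} (hc : Continuous Φ) (y : κ)
    (hy : ∀ (V : κ → ℝ) (s : ℝ), Φ (Function.update V y s) = Φ V) :
    ∫ V, ((V y : ℝ) : ℂ) * Φ V ∂(Γ κ) = 0 := by
  have h := Run7.h108.GL.fac y (fun s => s) Φ continuous_id hc hy
  rw [h, Law.mean]
  simp

/-- the second moment -/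
theorem v2 {Φ : (κ → ℝ) → ℂ} (hc : Continuous Φ) (y : κ)
    (hy : ∀ (V : κ → ℝ) (s : ℝ), Φ (Function.update V y s) = Φ V) :
    ∫ V, ((V y : ℝ) : ℂ) ^ 2 * Φ V ∂(Γ κ) = ∫ V, Φ V ∂(Γ κ) := by
  have h := Run7.h108.GL.fac y (fun s => s ^ 2) Φ (continuous_pow 2) hc hy
  rw [Law.var] at h
  simpa using h

end Run7.h108.HD
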