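import Pool.Agent.Run7.h108.HD.Fin

/-! The hand-in statements of project HD, from `S_QD` and `S_LOC`: fair signs. -/

set_option autoImplicit false

open MeasureTheory
open scoped ENNReal

namespace Run7.h108.HDF

noncomputable section

/-- The law of a fair sign: `P(ω_j = 1) = P(ω_j = -1) = 1 / 2`. -/
def signs : Measure ℝ := (1 / 2 : ℝ≥0∞) • Measure.dirac 1 + (1 / 2 : ℝ≥0∞) • Measure.dirac (-1)

theorem signs_prob : IsProbabilityMeasure signs := by
  refine ⟨?_⟩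
  unfold signs
  rw [Measure.add_apply, Measure.smul_apply, Measure.smul_apply, measure_univ, measure_univ,
    smul_eq_mul, mul_one, one_div, ENNReal.inv_two_add_inv_two]

theorem signs_supp : signs (Set.Icc (-1) 1)ᶜ = 0 := by
  have hs : MeasurableSet (Set.Icc (-1 : ℝ) 1)ᶜ := measurableSet_Icc.compl
  unfold signs
  rw [Measure.add_apply, Measure.smul_apply, Measure.smul_apply, Measure.dirac_apply' _ hs,
    Measure.dirac_apply' _ hs, Set.indicator_of_notMem (by simp), Set.indicator_of_notMem (by simp)]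
  simp

theorem signs_int (f : ℝ → ℝ) : ∫ t, f t ∂signs = (f 1 + f (-1)) / 2 := by
  unfold signs
  rw [integral_add_measure, integral_smul_measure, integral_smul_measure,
    integral_dirac, integral_dirac]
  · simp
    ring
  · exact (integrable_dirac (by simp)).smul_measure (by simp)
  · exact (integrable_dirac (by simp)).smul_measure (by simp)

theorem signs_mean : (0 : ℝ) = ∫ s, s ∂signs := by
  rw [signs_int (fun x => x)]
  norm_num

theorem signs_var : (1 : ℝ) = ∫ s, (s - 0) ^ 2 ∂signs := by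
  rw [signs_int (fun x => (x - 0) ^ 2)]
  norm_num

/-- The potential `ω` being i.i.d. fair signs: for all `P` with `∑ |P_i| ≤ M` and
`G = (Δ_ω - E - i t)⁻¹ δ_0`,
`𝔼 |√d t ∑_x exp (i √(t / √d) P·x) |G(x)|² - g / (1 + |P|² / (2 g))|² ≤ ε`, `g = gau d E`. -/
def DiffusiveB (d : ℕ) (E t M ε : ℝ) : Prop :=
  ∀ P : Fin d → ℝ, ∑ i, |P i| ≤ M → ∀ G : ((Fin d → ℤ) → ℝ) → (Fin d → ℤ) → ℂ,
    (∀ ω, IsGreen ((E : ℂ) + (t : ℂ) * Complex.I) ω (G ω)) →
    Integrable (fun ω => ‖((Real.sqrt d * t : ℝ) : ℂ) *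
        dens (G ω) (fun i => Real.sqrt (t / Real.sqrt d) * P i) -
      ((gau d E / (1 + (∑ i, P i ^ 2) / (2 * gau d E)) : ℝ) : ℂ)‖ ^ 2)
      (Measure.infinitePi fun _ : Fin d → ℤ => signs) ∧
    ∫ ω, ‖((Real.sqrt d * t : ℝ) : ℂ) *
        dens (G ω) (fun i => Real.sqrt (t / Real.sqrt d) * P i) -
      ((gau d E / (1 + (∑ i, P i ^ 2) / (2 * gau d E)) : ℝ) : ℂ)‖ ^ 2
      ∂(Measure.infinitePi fun _ : Fin d → ℤ => signs) ≤ ε

/-- **quantum diffusion in high dimension, fair signs** -/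
theorem diffB (hQ : Run7.h442.HD.S_QD) (A M ε : ℝ) (hM : 0 ≤ M) (hε : 0 < ε) :
    ∃ w : ℝ, 0 < w ∧ ∃ d₀ : ℕ, ∀ d : ℕ, d₀ ≤ d → ∀ E t : ℝ, |E - 2 * d| ≤ A * Real.sqrt d →
      (d : ℝ) ^ (-(1 / 2 + 1 / 200 : ℝ)) ≤ t → t ≤ w / Real.sqrt d → DiffusiveB d E t M ε := by
  have := signs_prob
  obtain ⟨w, hw, d0, H⟩ := diff hQ 1 A M ε le_rfl hM hε
  refine ⟨w, hw, d0, fun d hd E t hE ht1 ht2 P hP G hG => ?_⟩
  have h := H signs 0 1 signs_supp signs_mean signs_var (by norm_num) d hd E t hE ht1 ht2 P hP G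
    (fun ω => by
      rw [add_zero]
      exact hG ω)
  rw [one_mul] at h
  exact h

/-- **localization lengths in high dimension, fair signs** -/
theorem locB (hL : Run7.h442.HD.S_LOC) (ε : ℝ) (hε : 0 < ε) :
    ∃ d₀ : ℕ, ∀ (d L : ℕ) [NeZero L], d₀ ≤ d → (d : ℝ) ^ 8 ≤ L →
      Spread signs d L ((d : ℝ) ^ (1 / 2 + 1 / 500 : ℝ)) ε := by
  have := signs_prob
  obtain ⟨d0, H⟩ := loc hL 1 ε le_rfl hε
  exact ⟨d0, fun d L _ hd hL => H signs 0 1 signs_supp signs_mean signs_var (by norm_num) d L hd hL⟩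

end

end Run7.h108.HDF
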