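import Pool.Agent.Run7.h108.HD.Fin

/-! The hand-in statements of project HD, from `S_QD` and `S_LOC`: general laws and a coupling. -/

set_option autoImplicit false

open MeasureTheory

namespace Run7.h108.HDL

open Run7.h108
open Run7.h108.HDF (dens gau atom Torus slab mass)

noncomputable section

/-- `u` is square summable and `(-Δ + lam ω - z) u = δ_0`, i.e. `u = (H - z)⁻¹ δ_0`. -/
def IsGreen (d : ℕ) (lam : ℝ) (z : ℂ) (ω : (Fin d → ℤ) → ℝ) (u : (Fin d → ℤ) → ℂ) : Prop :=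
  (Summable fun x => ‖u x‖ ^ 2) ∧
  ∀ x, ∑ i, ((u x - u (x + Pi.single i 1)) + (u x - u (x - Pi.single i 1))) +
    lam * ω x * u x - z * u x = if x = 0 then 1 else 0

theorem green_same {d : ℕ} {lam : ℝ} {z : ℂ} {ω : (Fin d → ℤ) → ℝ} {u : (Fin d → ℤ) → ℂ} :
    IsGreen d lam z ω u ↔ HDF.IsGreen z (fun x => lam * ω x) u := by
  unfold IsGreen HDF.IsGreen
  refine and_congr_right fun _ => forall_congr' fun x => ?_
  have e1 : -(∑ i : Fin d, ((u (x + Pi.single i 1) - u x) + (u (x - Pi.single i 1) - u x))) =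
      ∑ i : Fin d, ((u x - u (x + Pi.single i 1)) + (u x - u (x - Pi.single i 1))) := by
    rw [← Finset.sum_neg_distrib]
    exact Finset.sum_congr rfl fun i _ => by ring
  rw [e1]
  push_cast
  rfl

/-- The potential `ω` being i.i.d. with law `μ`, of mean `m` and variance `v2`: for all `P` with
`∑ |P_i| ≤ M` and `G = (-Δ + lam ω - (E + lam m) - i t)⁻¹ δ_0`,
`𝔼 |√d t ∑_x exp (i lam √(v2 t / √d) P·x) |G(x)|² - g / (1 + |P|² / (2 g))|² ≤ ε`, `g = gau d E`. -/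
def Diffusive (d : ℕ) (μ : Measure ℝ) (m v2 lam E t M ε : ℝ) : Prop :=
  ∀ P : Fin d → ℝ, ∑ i, |P i| ≤ M → ∀ G : ((Fin d → ℤ) → ℝ) → (Fin d → ℤ) → ℂ,
    (∀ ω, IsGreen d lam (((E + lam * m : ℝ) : ℂ) + (t : ℂ) * Complex.I) ω (G ω)) →
    Integrable (fun ω => ‖((Real.sqrt d * t : ℝ) : ℂ) *
        dens (G ω) (fun i => lam * Real.sqrt (v2 * t / Real.sqrt d) * P i) -
      ((gau d E / (1 + (∑ i, P i ^ 2) / (2 * gau d E)) : ℝ) : ℂ)‖ ^ 2)
      (Measure.infinitePi fun _ : Fin d → ℤ => μ) ∧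
    ∫ ω, ‖((Real.sqrt d * t : ℝ) : ℂ) *
        dens (G ω) (fun i => lam * Real.sqrt (v2 * t / Real.sqrt d) * P i) -
      ((gau d E / (1 + (∑ i, P i ^ 2) / (2 * gau d E)) : ℝ) : ℂ)‖ ^ 2
      ∂(Measure.infinitePi fun _ : Fin d → ℤ => μ) ≤ ε

/-- existence and uniqueness of the Green function -/
theorem green_eu {d : ℕ} (lam : ℝ) (z : ℂ) (ω : (Fin d → ℤ) → ℝ) (hz : 0 < z.im) :
    ∃! u, IsGreen d lam z ω u := by
  obtain ⟨u, hu, huu⟩ := HDF.green_eu z (fun x => lam * ω x) hz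
  exact ⟨u, green_same.2 hu, fun w hw => huu w (green_same.1 hw)⟩

/-- the numbers attached to a law -/
theorem prep {K : ℝ} (hK : 1 ≤ K) {ν : Measure ℝ} [IsProbabilityMeasure ν] {m v2 : ℝ}
    (hR : ν (Set.Icc (-K) K)ᶜ = 0) (hm : m = ∫ s, s ∂ν) (hv2 : v2 = ∫ s, (s - m) ^ 2 ∂ν)
    (hv : 1 / K ^ 2 ≤ v2) : GL.mean ν = m ∧ 0 < v2 ∧ GL.sd ν = Real.sqrt v2 ∧
      0 < GL.sd ν ∧ 1 / K ≤ GL.sd ν ∧ GL.sd ν ≤ 2 * K ∧ (∀ c, ν {c} ≠ 1) ∧
      ∀ hν : ∀ c, ν {c} ≠ 1, (GL.lawNu ν K hR hν).b ≤ (K + K) * K + 1 := by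
  have hK0 : 0 < K := by linarith
  have hmm : GL.mean ν = m := hm.symm
  have hv2p : 0 < v2 := lt_of_lt_of_le (by positivity) hv
  have hvs : GL.sd ν = Real.sqrt v2 := by rw [hv2, ← hmm, GL.sd]
  have hv0 : 0 < GL.sd ν := by rw [hvs]; positivity
  have hvv : v2 = GL.sd ν ^ 2 := by rw [hvs, Real.sq_sqrt hv2p.le]
  have hv1 : 1 / K ≤ GL.sd ν := by
    rw [hvs]
    refine Real.le_sqrt_of_sq_le ?_
    rw [div_pow, one_pow]
    exact hv
  have hbd := GL.nu_bd hR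
  have hmK : |m| ≤ K := by
    rw [hm]
    have h1 : ‖∫ s, s ∂ν‖ ≤ K * ν.real Set.univ := norm_integral_le_of_norm_le_const hbd
    simpa using h1
  have hvK : GL.sd ν ≤ 2 * K := by
    have i1 := GL.nu_int hR (f := fun s => (s - m) ^ 2) (by fun_prop)
    have h3 : v2 ≤ (2 * K) ^ 2 := by
      rw [hv2]
      calc ∫ s, (s - m) ^ 2 ∂ν ≤ ∫ _s, (2 * K) ^ 2 ∂ν := by
            refine integral_mono_ae i1 (integrable_const _) ?_
            filter_upwards [hbd] with s hs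
            have h5 := abs_le.1 hs
            have h6 := abs_le.1 hmK
            exact sq_le_sq' (by linarith [h5.1, h6.2]) (by linarith [h5.2, h6.1])
        _ = (2 * K) ^ 2 := by simp
    rw [hvv] at h3
    exact (le_abs_self _).trans (abs_le_of_sq_le_sq h3 (by linarith))
  refine ⟨hmm, hv2p, hvs, hv0, hv1, hvK, atom hv0, fun hν => ?_⟩
  show (|K| + |GL.mean ν|) / GL.sd ν + 1 ≤ (K + K) * K + 1
  rw [hmm, abs_of_pos hK0]
  have h1 : (K + |m|) / GL.sd ν ≤ (K + K) * K := by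
    rw [div_le_iff₀ hv0]
    have h2 : 1 ≤ K * GL.sd ν := by
      have := mul_le_mul_of_nonneg_left hv1 hK0.le
      rwa [mul_one_div_cancel hK0.ne'] at this
    calc K + |m| ≤ (K + K) * 1 := by linarith
      _ ≤ (K + K) * (K * GL.sd ν) := mul_le_mul_of_nonneg_left h2 (by linarith)
      _ = _ := by ring
  linarith

/-- **quantum diffusion in high dimension, general laws** -/
theorem diff (hQ : Run7.h442.HD.S_QD) (K A M ε : ℝ) (hK : 1 ≤ K) (hM : 0 ≤ M) (hε : 0 < ε) :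
    ∃ w : ℝ, 0 < w ∧ ∃ d₀ : ℕ, ∀ (ν : Measure ℝ) [IsProbabilityMeasure ν] (m v2 : ℝ),
      ν (Set.Icc (-K) K)ᶜ = 0 → m = ∫ s, s ∂ν → v2 = ∫ s, (s - m) ^ 2 ∂ν → 1 / K ^ 2 ≤ v2 →
      ∀ d : ℕ, d₀ ≤ d → ∀ lam E t : ℝ, 1 / K ≤ lam → lam ≤ K → |E - 2 * d| ≤ A * Real.sqrt d →
        (d : ℝ) ^ (-(1 / 2 + 1 / 200 : ℝ)) ≤ t → t ≤ w / Real.sqrt d →
        Diffusive d ν m v2 lam E t M ε := by
  have hK0 : 0 < K := by linarith
  obtain ⟨K', hK'⟩ : ∃ K', K' = (K + K) * K + 1 := ⟨_, rfl⟩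
  have hK1 : 1 ≤ K' := by rw [hK']; nlinarith
  obtain ⟨w, hw0, -, d0, H⟩ := hQ K' A M ε hK1 hM hε
  refine ⟨w, hw0, d0 + 1, ?_⟩
  intro ν _ m v2 hR hm hv2 hv d hd lam E t hlam1 hlam2 hE ht1 ht2
  obtain ⟨hmm, hv2p, hvs', hv0', hv1', hvK', hν, hb'⟩ := prep hK hR hm hv2 hv
  obtain ⟨v, hvd⟩ : ∃ v, v = GL.sd ν := ⟨_, rfl⟩
  rw [← hvd] at hvs' hv0' hv1' hvK'
  have hlam : 0 < lam := lt_of_lt_of_le (by positivity) hlam1
  let _ := GL.lawNu ν K hR hν
  have hb : (GL.lawNu ν K hR hν).b ≤ K' := by rw [hK']; exact hb' hν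
  have hσ : |(-(lam * v))| = lam * v := by rw [abs_neg, abs_of_pos (by positivity)]
  have hd0 : 0 < (d : ℝ) := by
    have : 0 < d := lt_of_lt_of_le (Nat.succ_pos _) hd
    exact_mod_cast this
  have hsq : 0 < Real.sqrt d := Real.sqrt_pos.2 hd0
  have ht0 : 0 ≤ t := le_trans (by positivity) ht1
  have c1 : 1 / K' ≤ |(-(lam * v))| := by
    rw [hσ]
    have h1 : 1 / K * (1 / K) ≤ lam * v := mul_le_mul hlam1 hv1' (by positivity) hlam.le
    refine le_trans ?_ h1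
    rw [one_div_mul_one_div]
    exact one_div_le_one_div_of_le (by positivity) (by rw [hK']; nlinarith)
  have c2 : |(-(lam * v))| ≤ K' := by
    rw [hσ, hK']
    have h1 : lam * v ≤ K * (2 * K) := mul_le_mul hlam2 hvK' hv0'.le hK0.le
    nlinarith
  have c3 : |2 * (d : ℝ) - E| ≤ A * Real.sqrt d := by rwa [abs_sub_comm]
  have c4 : t * Real.sqrt d ≤ w := by rwa [le_div_iff₀ hsq] at ht2
  intro P hP G hG
  obtain ⟨g1, g2⟩ := H d (by omega) hb (-(lam * v)) (2 * d - E) t c1 c2 c3 ht1 c4 P hP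
    (fun V x => -(starRingEnd ℂ) (G (fun y => m + v * V y) x))
    (fun V => (HDF.green_iff (fun x => by ring)).1 (green_same.1 (hG (fun y => m + v * V y))))
  have hga : Run7.h442.HD.Ga d (2 * d - E) = gau d E := by
    unfold Run7.h442.HD.Ga gau
    congr 3
    ring
  have hpr : Run7.h442.HD.Pr (Run7.h442.HD.Ga d (2 * d - E)) (∑ i, P i ^ 2) =
      gau d E / (1 + (∑ i, P i ^ 2) / (2 * gau d E)) := by
    rw [hga]
    rfl
  have hmom : ∀ i, |(-(lam * v))| * Real.sqrt (t / Real.sqrt d) * P i =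
      lam * Real.sqrt (v2 * t / Real.sqrt d) * P i := by
    intro i
    rw [hσ, mul_div_assoc, Real.sqrt_mul hv2p.le, ← hvs']
    ring
  have hlaw := GL.lawNu_inf ν K hR hν (Fin d → ℤ)
  rw [hpr] at g1 g2
  simp only [hmom] at g1 g2
  obtain ⟨Φ, hΦ⟩ : ∃ Φ : ((Fin d → ℤ) → ℝ) → ℝ, Φ = fun V => ‖((Real.sqrt d * t : ℝ) : ℂ) *
      dens (fun x => -(starRingEnd ℂ) (G (fun y => m + v * V y) x))
        (fun i => lam * Real.sqrt (v2 * t / Real.sqrt d) * P i) -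
      ((gau d E / (1 + (∑ i, P i ^ 2) / (2 * gau d E)) : ℝ) : ℂ)‖ ^ 2 := ⟨_, rfl⟩
  have g1' : Integrable Φ (Measure.infinitePi fun _ : Fin d → ℤ =>
      (GL.lawNu ν K hR hν).μ) := by
    rw [hΦ]
    exact g1
  have g2' : ∫ V, Φ V ∂(Measure.infinitePi fun _ : Fin d → ℤ =>
      (GL.lawNu ν K hR hν).μ) ≤ ε := by
    rw [hΦ]
    exact g2
  rw [← hlaw] at g1' g2'
  have hmeas : Measurable fun (ω : (Fin d → ℤ) → ℝ) (x : Fin d → ℤ) =>
      (ω x - GL.mean ν) / GL.sd ν :=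
    measurable_pi_iff.2 fun x => ((measurable_pi_apply x).sub_const _).div_const _
  have g3 := g1'.comp_measurable hmeas
  rw [integral_map hmeas.aemeasurable g1'.aestronglyMeasurable] at g2'
  have hfun : ∀ ω : (Fin d → ℤ) → ℝ,
      Φ (fun x => (ω x - GL.mean ν) / GL.sd ν) =
      ‖((Real.sqrt d * t : ℝ) : ℂ) * dens (G ω)
        (fun i => lam * Real.sqrt (v2 * t / Real.sqrt d) * P i) -
      ((gau d E / (1 + (∑ i, P i ^ 2) / (2 * gau d E)) : ℝ) : ℂ)‖ ^ 2 := by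
    intro ω
    have e1 : (fun y => m + v * ((ω y - GL.mean ν) / GL.sd ν)) = ω := by
      funext y
      rw [← hvd, hmm]
      field_simp
      ring
    rw [hΦ]
    unfold dens
    simp only [norm_neg, RCLike.norm_conj]
    rw [e1]
  refine ⟨?_, ?_⟩
  · refine g3.congr (Filter.Eventually.of_forall fun ω => ?_)
    exact hfun ω
  · simp only [hfun] at g2'
    exact g2'

/-! ### Eigenvectors on large tori -/

/-- `u` solves `(-Δ + lam ω) u = E u` on the torus. -/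
def IsEigenvector {d L : ℕ} (lam : ℝ) (ω : Torus d L → ℝ) (E : ℝ) (u : Torus d L → ℂ) : Prop :=
  ∀ x, ∑ i : Fin d, ((u x - u (x + Pi.single i 1)) + (u x - u (x - Pi.single i 1))) +
    lam * ω x * u x = E * u x

/-- The potential `ω` on the torus of side `L` being i.i.d. with law `μ`: for every direction `i`
there is a set `S` of potentials with probability at least `1 - ε` such that for `ω ∈ S` the
following holds: a family of orthonormal eigenvectors of `-Δ + lam ω`, each of which has at least the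
fraction `ε` of its mass in some slab `{|x_i - c| ≤ r}`, has at most `ε L^d` members. -/
def Spread (μ : Measure ℝ) (d L : ℕ) [NeZero L] (lam r ε : ℝ) : Prop :=
  ∀ i : Fin d, ∃ S : Set (Torus d L → ℝ), MeasurableSet S ∧
    1 - ε ≤ (Measure.pi fun _ : Torus d L => μ).real S ∧
    ∀ ω ∈ S, ∀ (ι : Type) [Fintype ι] (u : ι → EuclideanSpace ℂ (Torus d L)) (E : ι → ℝ),
      Orthonormal ℂ u → (∀ j, IsEigenvector lam ω (E j) (u j)) →
      (∀ j, ∃ c : ZMod L, ε ≤ mass (u j) (slab r i c)) →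
      (Fintype.card ι : ℝ) ≤ ε * (L : ℝ) ^ d

theorem eig_iff {d L : ℕ} {lam v m E : ℝ} {ω V : Torus d L → ℝ} (hV : ∀ x, ω x = m + v * V x)
    {u : Torus d L → ℂ} (h : IsEigenvector lam ω E u) :
    _root_.Pool.Agent.Run7.h47.IsEig (-(lam * v)) (2 * d + lam * m - E) V u := by
  intro x
  have h1 := h x
  have e1 : ∑ i : Fin d, ((u x - u (x + Pi.single i 1)) + (u x - u (x - Pi.single i 1))) =
      2 * d * u x - ∑ i : Fin d, (u (x + Pi.single i 1) + u (x - Pi.single i 1)) := by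
    have e2 : 2 * (d : ℂ) * u x = ∑ _i : Fin d, 2 * u x := by
      rw [Finset.sum_const, Finset.card_univ, Fintype.card_fin, nsmul_eq_mul]
      ring
    rw [e2, ← Finset.sum_sub_distrib]
    exact Finset.sum_congr rfl fun i _ => by ring
  rw [e1, hV x] at h1
  push_cast at h1 ⊢
  linear_combination -h1

/-- **localization lengths in high dimension, general laws** -/
theorem loc (hL : Run7.h442.HD.S_LOC) (K ε : ℝ) (hK : 1 ≤ K) (hε : 0 < ε) :
    ∃ d₀ : ℕ, ∀ (ν : Measure ℝ) [IsProbabilityMeasure ν] (m v2 : ℝ),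
      ν (Set.Icc (-K) K)ᶜ = 0 → m = ∫ s, s ∂ν → v2 = ∫ s, (s - m) ^ 2 ∂ν → 1 / K ^ 2 ≤ v2 →
      ∀ (d L : ℕ) [NeZero L], d₀ ≤ d → (d : ℝ) ^ 8 ≤ L → ∀ lam : ℝ, 1 / K ≤ lam → lam ≤ K →
        Spread ν d L lam ((d : ℝ) ^ (1 / 2 + 1 / 500 : ℝ)) ε := by
  classical
  have hK0 : 0 < K := by linarith
  obtain ⟨K', hK'⟩ : ∃ K', K' = (K + K) * K + 1 := ⟨_, rfl⟩
  have hK1 : 1 ≤ K' := by rw [hK']; nlinarith
  obtain ⟨d0, H⟩ := hL K' ε hK1 hε
  refine ⟨d0, ?_⟩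
  intro ν _ m v2 hR hm hv2 hv d L _ hd hdL lam hlam1 hlam2 i
  obtain ⟨hmm, hv2p, hvs', hv0', hv1', hvK', hν, hb'⟩ := prep hK hR hm hv2 hv
  obtain ⟨v, hvd⟩ : ∃ v, v = GL.sd ν := ⟨_, rfl⟩
  rw [← hvd] at hvs' hv0' hv1' hvK'
  have hlam : 0 < lam := lt_of_lt_of_le (by positivity) hlam1
  let _ := GL.lawNu ν K hR hν
  have hb : (GL.lawNu ν K hR hν).b ≤ K' := by rw [hK']; exact hb' hν
  have hσ : |(-(lam * v))| = lam * v := by rw [abs_neg, abs_of_pos (by positivity)]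
  have c1 : 1 / K' ≤ |(-(lam * v))| := by
    rw [hσ]
    have h1 : 1 / K * (1 / K) ≤ lam * v := mul_le_mul hlam1 hv1' (by positivity) hlam.le
    refine le_trans ?_ h1
    rw [one_div_mul_one_div]
    exact one_div_le_one_div_of_le (by positivity) (by rw [hK']; nlinarith)
  have c2 : |(-(lam * v))| ≤ K' := by
    rw [hσ, hK']
    have h1 : lam * v ≤ K * (2 * K) := mul_le_mul hlam2 hvK' hv0'.le hK0.le
    nlinarith
  obtain ⟨S, k1, k2, k3⟩ := H d L hd hdL hb (-(lam * v)) c1 c2 i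
  have hmeas : Measurable fun (ω : Torus d L → ℝ) (x : Torus d L) =>
      (ω x - GL.mean ν) / GL.sd ν :=
    measurable_pi_iff.2 fun x => ((measurable_pi_apply x).sub_const _).div_const _
  have k2' : 1 - ε ≤ (Measure.pi fun _ : Torus d L =>
      (GL.lawNu ν K hR hν).μ).real S := k2
  rw [← GL.lawNu_pi ν K hR hν (Torus d L), measureReal_def,
    Measure.map_apply hmeas k1, ← measureReal_def] at k2'
  refine ⟨_, hmeas k1, k2', fun ω hω ι _ u E hu hE hms => ?_⟩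
  refine k3 _ hω ι u (fun j => 2 * d + lam * m - E j) hu (fun j => ?_) fun j => ?_
  · exact eig_iff (v := v) (m := m) (V := fun x => (ω x - GL.mean ν) / GL.sd ν) (fun x => by
        rw [← hvd, hmm]
        field_simp
        ring) (hE j)
  · obtain ⟨z, hic⟩ := hms j
    refine ⟨z, hic.trans ?_⟩
    unfold mass
    rw [Finset.sum_filter]
    refine Finset.sum_le_sum fun x _ => ?_
    by_cases hx : x ∈ slab ((d : ℝ) ^ (1 / 2 + 1 / 500 : ℝ)) i z
    · have hx2 : _root_.Pool.Agent.Run7.h47.InSlab ((d : ℝ) ^ (1 / 2 + 1 / 500 : ℝ)) i z x := hx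
      rw [if_pos hx, if_pos hx2]
    · rw [if_neg hx]
      split_ifs <;> positivity

end

end Run7.h108.HDL
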