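import Pool.Agent.Run7.h108.HD.Fin

/-! The hand-in statements of project HD, from `S_QD` and `S_LOC`: the uniform law. -/

set_option autoImplicit false

open MeasureTheory

namespace Run7.h108.HDU

open Run7.h108.HDF

noncomputable section

/-- The uniform law on `[-c, c]`. -/
def unif (c : ℝ) : Measure ℝ :=
  ENNReal.ofReal (1 / (2 * c)) • volume.restrict (Set.Icc (-c) c)

theorem unif_prob {c : ℝ} (hc : 0 < c) : IsProbabilityMeasure (unif c) := by
  refine ⟨?_⟩
  unfold unif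
  rw [Measure.smul_apply, Measure.restrict_apply_univ, Real.volume_Icc, smul_eq_mul,
    ← ENNReal.ofReal_mul (by positivity)]
  have : 1 / (2 * c) * (c - -c) = 1 := by field_simp; ring
  rw [this, ENNReal.ofReal_one]

theorem unif_supp {c K : ℝ} (h : c ≤ K) : unif c (Set.Icc (-K) K)ᶜ = 0 := by
  unfold unif
  rw [Measure.smul_apply, Measure.restrict_apply measurableSet_Icc.compl]
  have : (Set.Icc (-K) K)ᶜ ∩ Set.Icc (-c) c = ∅ := by
    rw [Set.eq_empty_iff_forall_notMem]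
    rintro s ⟨h1, h2⟩
    exact h1 ⟨by linarith [h2.1], by linarith [h2.2]⟩
  rw [this]
  simp

theorem unif_mean {c : ℝ} : ∫ s, s ∂(unif c) = 0 := by
  unfold unif
  rcases le_or_gt c 0 with hc | hc
  · rcases hc.lt_or_eq with h | h
    · rw [Set.Icc_eq_empty (by linarith)]
      simp
    · rw [h]
      simp
  rw [integral_smul_measure, integral_Icc_eq_integral_Ioc,
    ← intervalIntegral.integral_of_le (by linarith), integral_id]
  simp

theorem unif_sq {c : ℝ} (hc : 0 < c) : ∫ s, s ^ 2 ∂(unif c) = c ^ 2 / 3 := by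
  unfold unif
  rw [integral_smul_measure, integral_Icc_eq_integral_Ioc,
    ← intervalIntegral.integral_of_le (by linarith), integral_pow,
    ENNReal.toReal_ofReal (by positivity)]
  simp only [smul_eq_mul]
  field_simp
  push_cast
  ring

theorem unif_var {c : ℝ} (hc : 0 < c) : c ^ 2 / 3 = ∫ s, (s - 0) ^ 2 ∂(unif c) := by
  simp only [sub_zero]
  exact (unif_sq hc).symm

/-- **quantum diffusion in high dimension, uniform law** -/
theorem diffU (hQ : Run7.h442.HD.S_QD) (K A M ε : ℝ) (hK : 1 ≤ K) (hM : 0 ≤ M) (hε : 0 < ε) :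
    ∃ w : ℝ, 0 < w ∧ ∃ d₀ : ℕ, ∀ d : ℕ, d₀ ≤ d → ∀ c E t : ℝ, 1 / K ≤ c → c ≤ K →
      |E - 2 * d| ≤ A * Real.sqrt d → (d : ℝ) ^ (-(1 / 2 + 1 / 200 : ℝ)) ≤ t →
      t ≤ w / Real.sqrt d → Diffusive d (unif c) 0 (c ^ 2 / 3) E t M ε := by
  have hK0 : 0 < K := by linarith
  obtain ⟨w, hw, d0, H⟩ := diff hQ (2 * K) A M ε (by linarith) hM hε
  refine ⟨w, hw, d0, fun d hd c E t hc1 hc2 hE ht1 ht2 => ?_⟩
  have hc : 0 < c := lt_of_lt_of_le (by positivity) hc1
  have := unif_prob hc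
  refine H (unif c) 0 (c ^ 2 / 3) (unif_supp (by linarith)) unif_mean.symm (unif_var hc) ?_ d hd E t
    hE ht1 ht2
  have h1 : 1 ≤ K * c := by
    have := mul_le_mul_of_nonneg_left hc1 hK0.le
    rwa [mul_one_div_cancel hK0.ne'] at this
  rw [div_le_div_iff₀ (by positivity) (by norm_num)]
  nlinarith

/-- **localization lengths in high dimension, uniform law** -/
theorem locU (hL : Run7.h442.HD.S_LOC) (K ε : ℝ) (hK : 1 ≤ K) (hε : 0 < ε) :
    ∃ d₀ : ℕ, ∀ (d L : ℕ) [NeZero L], d₀ ≤ d → (d : ℝ) ^ 8 ≤ L → ∀ c : ℝ, 1 / K ≤ c → c ≤ K →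
      Spread (unif c) d L ((d : ℝ) ^ (1 / 2 + 1 / 500 : ℝ)) ε := by
  have hK0 : 0 < K := by linarith
  obtain ⟨d0, H⟩ := loc hL (2 * K) ε (by linarith) hε
  refine ⟨d0, fun d L _ hd hL c hc1 hc2 => ?_⟩
  have hc : 0 < c := lt_of_lt_of_le (by positivity) hc1
  have := unif_prob hc
  refine H (unif c) 0 (c ^ 2 / 3) (unif_supp (by linarith)) unif_mean.symm (unif_var hc) ?_ d L hd
    hL
  have h1 : 1 ≤ K * c := by
    have := mul_le_mul_of_nonneg_left hc1 hK0.le
    rwa [mul_one_div_cancel hK0.ne'] at this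
  rw [div_le_div_iff₀ (by positivity) (by norm_num)]
  nlinarith

end

end Run7.h108.HDU
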