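import Pool.Agent.Run7.h108.HD.Av

/-! The random potential applied to averaged functions: pairs of sites. -/

set_option autoImplicit false
set_option linter.unusedSectionVars false

open scoped BigOperators Matrix
open MeasureTheory

namespace Run7.h108.HD

open Run7.h108.GL (Law Γ)

variable {κ : Type} [Fintype κ] [DecidableEq κ] [Law]

/-- real part of the product with the conjugate -/
theorem re_mul_conj (z w : ℂ) : (z * (starRingEnd ℂ) w).re = z.re * w.re + z.im * w.im := by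
  rw [Complex.mul_re, Complex.conj_re, Complex.conj_im]
  ring

theorem co_upd {x y : κ} (hxy : x ≠ y) (V : κ → ℝ) (s : ℝ) : Function.update V y s x = V x :=
  Function.update_of_ne hxy _ _

theorem b47_cont {F : (κ → ℝ) → ℂ} (h : Pool.Agent.Run7.h47.BC F) : Continuous F := h.1

theorem co_cont (x : κ) : Continuous fun V : κ → ℝ => ((V x : ℝ) : ℂ) :=
  Complex.continuous_ofReal.comp (continuous_apply x)

/-- pairs of different sites -/
theorem offd {G H : (κ → ℝ) → ℂ} (hG : Pool.Agent.Run7.h47.BC G)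
    (hH : Pool.Agent.Run7.h47.BC H) {x y : κ} (hxy : x ≠ y) :
    |∫ V, V x * V y * ((av x G V).re * (av y H V).re + (av x G V).im * (av y H V).im) ∂(Γ κ)| ≤
      Law.b ^ 2 / 2 * (∫ V, ‖G V - G (Function.update V y 0)‖ ^ 2 ∂(Γ κ) +
        ∫ V, ‖H V - H (Function.update V x 0)‖ ^ 2 ∂(Γ κ)) := by
  have hb := av_BC hG x
  have hc := av_BC hH y
  have hbb := av_BC hb y
  have hcc := av_BC hc x
  set b := av x G with hbdef
  set c := av y H with hcdef
  have hα := hb.sub hbb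
  have hβ := hc.sub hcc
  have hbI : ∀ (V : κ → ℝ) (s : ℝ), b (Function.update V x s) = b V := fun V s => av_upd G x V s
  have hcI : ∀ (V : κ → ℝ) (s : ℝ), c (Function.update V y s) = c V := fun V s => av_upd H y V s
  have hbbI : ∀ (V : κ → ℝ) (s : ℝ), av y b (Function.update V y s) = av y b V :=
    fun V s => av_upd b y V s
  have hccI : ∀ (V : κ → ℝ) (s : ℝ), av x c (Function.update V x s) = av x c V :=
    fun V s => av_upd c x V s
  have hbbJ : ∀ (V : κ → ℝ) (s : ℝ), av y b (Function.update V x s) = av y b V := by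
    intro V s
    rw [hbdef, ← av_comm hG hxy]
    exact av_upd _ x V s
  -- the two vanishing terms
  have z1 : ∫ V, ((V y : ℝ) : ℂ) * (((V x : ℝ) : ℂ) * (av y b V * (starRingEnd ℂ) (c V))) ∂(Γ κ) = 0 := by
    refine vz (Φ := fun V => ((V x : ℝ) : ℂ) * (av y b V * (starRingEnd ℂ) (c V)))
      ((co_cont x).mul (hbb.1.mul (Complex.continuous_conj.comp hc.1))) y fun V s => ?_
    rw [co_upd hxy, hbbI, hcI]
  have z2 : ∫ V, ((V x : ℝ) : ℂ) * (((V y : ℝ) : ℂ) * ((b V - av y b V) *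
      (starRingEnd ℂ) (av x c V))) ∂(Γ κ) = 0 := by
    refine vz (Φ := fun V => ((V y : ℝ) : ℂ) * ((b V - av y b V) *
      (starRingEnd ℂ) (av x c V)))
      ((co_cont y).mul (hα.1.mul (Complex.continuous_conj.comp hcc.1))) x fun V s => ?_
    rw [co_upd hxy.symm, hbI, hbbJ, hccI]
  have gb := Run7.h108.GL.BC.of47 hb
  have gc := Run7.h108.GL.BC.of47 hc
  have gbb := Run7.h108.GL.BC.of47 hbb
  have gcc := Run7.h108.GL.BC.of47 hcc
  have gx := Run7.h108.GL.BC.co (κ := κ) x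
  have gy := Run7.h108.GL.BC.co (κ := κ) y
  have i1 := gy.mul (gx.mul (gbb.mul gc.conj))
  have i2 := gx.mul (gy.mul ((gb.sub gbb).mul gcc.conj))
  have i3 := (gx.mul gy).mul ((gb.sub gbb).mul (gc.sub gcc).conj)
  have i4 := (gx.mul gy).mul (gb.mul gc.conj)
  have e1 : ∫ V, ((V x : ℝ) : ℂ) * ((V y : ℝ) : ℂ) * (b V * (starRingEnd ℂ) (c V)) ∂(Γ κ) =
      ∫ V, ((V x : ℝ) : ℂ) * ((V y : ℝ) : ℂ) * ((b V - av y b V) *
        (starRingEnd ℂ) (c V - av x c V)) ∂(Γ κ) := by
    have e2 : ∀ V : κ → ℝ, ((V x : ℝ) : ℂ) * ((V y : ℝ) : ℂ) * (b V * (starRingEnd ℂ) (c V)) =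
        ((V x : ℝ) : ℂ) * ((V y : ℝ) : ℂ) * ((b V - av y b V) *
        (starRingEnd ℂ) (c V - av x c V)) +
        (((V y : ℝ) : ℂ) * (((V x : ℝ) : ℂ) * (av y b V * (starRingEnd ℂ) (c V))) +
        ((V x : ℝ) : ℂ) * (((V y : ℝ) : ℂ) * ((b V - av y b V) *
          (starRingEnd ℂ) (av x c V)))) := by
      intro V
      rw [map_sub]
      ring
    simp only [e2]
    rw [i3.iadd (i1.add i2), i1.iadd i2, z1, z2]
    ring
  have e3 : ∫ V, V x * V y * ((b V).re * (c V).re + (b V).im * (c V).im) ∂(Γ κ) =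
      (∫ V, ((V x : ℝ) : ℂ) * ((V y : ℝ) : ℂ) * (b V * (starRingEnd ℂ) (c V)) ∂(Γ κ)).re := by
    have h1 := integral_re i4.int
    simp only [RCLike.re_to_complex] at h1
    rw [← h1]
    refine integral_congr_ae (Filter.Eventually.of_forall fun V => ?_)
    simp only
    rw [← re_mul_conj, ← Complex.ofReal_mul, Complex.re_ofReal_mul]
  rw [e3, e1]
  refine (Complex.abs_re_le_norm _).trans ((norm_integral_le_integral_norm _).trans ?_)
  -- the bound
  have hA : ∫ V, ‖b V - av y b V‖ ^ 2 ∂(Γ κ) ≤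
      ∫ V, ‖G V - G (Function.update V y 0)‖ ^ 2 ∂(Γ κ) := by
    refine le_trans ?_ (int_var_le hG y)
    refine le_trans (le_of_eq ?_) (int_av_sq (hG.sub (av_BC hG y)) x)
    refine integral_congr_ae (Filter.Eventually.of_forall fun V => ?_)
    simp only
    rw [av_sub hG (av_BC hG y) x V, av_comm hG hxy]
  have hB : ∫ V, ‖c V - av x c V‖ ^ 2 ∂(Γ κ) ≤
      ∫ V, ‖H V - H (Function.update V x 0)‖ ^ 2 ∂(Γ κ) := by
    refine le_trans ?_ (int_var_le hH x)
    refine le_trans (le_of_eq ?_) (int_av_sq (hH.sub (av_BC hH x)) y)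
    refine integral_congr_ae (Filter.Eventually.of_forall fun V => ?_)
    simp only
    rw [av_sub hH (av_BC hH x) y V, av_comm hH hxy.symm]
  calc ∫ V, ‖((V x : ℝ) : ℂ) * ((V y : ℝ) : ℂ) * ((b V - av y b V) *
        (starRingEnd ℂ) (c V - av x c V))‖ ∂(Γ κ) ≤
      ∫ V, Law.b ^ 2 / 2 * (‖b V - av y b V‖ ^ 2 + ‖c V - av x c V‖ ^ 2) ∂(Γ κ) := by
        refine integral_mono_ae i3.norm.intR
          (((nsq_int hα).2.add (nsq_int hβ).2).const_mul _) ?_
        filter_upwards [Run7.h108.GL.ae_cube (κ := κ)] with V hV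
        rw [norm_mul, norm_mul, norm_mul, Complex.norm_real, Complex.norm_real, RCLike.norm_conj]
        have hx : ‖V x‖ ≤ Law.b := hV x
        have hy : ‖V y‖ ≤ Law.b := hV y
        have h1 : ‖V x‖ * ‖V y‖ ≤ Law.b ^ 2 := by
          rw [sq]
          exact mul_le_mul hx hy (norm_nonneg _) Law.hb.le
        have h2 : ‖b V - av y b V‖ * ‖c V - av x c V‖ ≤
            (‖b V - av y b V‖ ^ 2 + ‖c V - av x c V‖ ^ 2) / 2 := by
          nlinarith [sq_nonneg (‖b V - av y b V‖ - ‖c V - av x c V‖)]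
        calc ‖V x‖ * ‖V y‖ * (‖b V - av y b V‖ * ‖c V - av x c V‖) ≤
            Law.b ^ 2 * ((‖b V - av y b V‖ ^ 2 + ‖c V - av x c V‖ ^ 2) / 2) :=
              mul_le_mul h1 h2 (by positivity) (by positivity)
          _ = _ := by ring
    _ = Law.b ^ 2 / 2 * (∫ V, ‖b V - av y b V‖ ^ 2 ∂(Γ κ) +
          ∫ V, ‖c V - av x c V‖ ^ 2 ∂(Γ κ)) := by
        rw [integral_const_mul, integral_add (nsq_int hα).2 (nsq_int hβ).2]
    _ ≤ _ := by
        refine mul_le_mul_of_nonneg_left (add_le_add hA hB) (by positivity)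

/-- one site -/
theorem diag {G : (κ → ℝ) → ℂ} (hG : Pool.Agent.Run7.h47.BC G) (x : κ) :
    ∫ V, V x * V x * ((av x G V).re * (av x G V).re + (av x G V).im * (av x G V).im) ∂(Γ κ) ≤
      ∫ V, ‖G V‖ ^ 2 ∂(Γ κ) := by
  refine le_trans (le_of_eq ?_) (int_av_sq hG x)
  have h1 := v2 (Φ := fun V => ((‖av x G V‖ ^ 2 : ℝ) : ℂ))
    (Complex.continuous_ofReal.comp ((av_BC hG x).1.norm.pow 2)) x (fun V s => by
      simp only [av_upd])
  have h2 : ∫ V, V x * V x * ((av x G V).re * (av x G V).re +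
      (av x G V).im * (av x G V).im) ∂(Γ κ) = ∫ V, V x ^ 2 * ‖av x G V‖ ^ 2 ∂(Γ κ) := by
    refine integral_congr_ae (Filter.Eventually.of_forall fun V => ?_)
    simp only
    rw [← Complex.normSq_eq_norm_sq, Complex.normSq_apply]
    ring
  rw [h2]
  have h3 : ((∫ V, V x ^ 2 * ‖av x G V‖ ^ 2 ∂(Γ κ) : ℝ) : ℂ) =
      ((∫ V, ‖av x G V‖ ^ 2 ∂(Γ κ) : ℝ) : ℂ) := by
    rw [← integral_complex_ofReal, ← integral_complex_ofReal, ← h1]
    refine integral_congr_ae (Filter.Eventually.of_forall fun V => ?_)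
    simp only
    push_cast
    ring
  exact_mod_cast h3

end Run7.h108.HD
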